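import Pool.Agent.W95.BK.Stm

/-!
# Independence of the centre and sum over directions (project BK)
-/

open Polynomial Topology Filter MeasureTheory
open Pool.Agent.W95.BK

namespace Pool.Agent.W721.BK.Center

universe u

/-- counting lemma: pairwise disjoint subsets of `S` -/
lemma count {α β : Type*} (Z : Finset β) (S : β → Set α) (T : Set α)
    (hT : ∀ z ∈ Z, S z ⊆ T) (hd : ∀ z ∈ Z, ∀ z' ∈ Z, z ≠ z' → Disjoint (S z) (S z'))
    [∀ z, DecidablePred (fun w => w ∈ S z)] [DecidablePred (fun w => w ∈ T)] (M : Multiset α) :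
    ∑ z ∈ Z, (M.filter (fun w => w ∈ S z)).card ≤ (M.filter (fun w => w ∈ T)).card := by
  classical
  induction M using Multiset.induction_on with
  | empty => simp
  | cons w M ih =>
    have h1 : ∀ z, ((w ::ₘ M).filter (fun v => v ∈ S z)).card =
        (M.filter (fun v => v ∈ S z)).card + if w ∈ S z then 1 else 0 := by
      intro z
      by_cases h : w ∈ S z
      · simp [h]
      · simp [h]
    have h2 : ((w ::ₘ M).filter (fun v => v ∈ T)).card =
        (M.filter (fun v => v ∈ T)).card + if w ∈ T then 1 else 0 := by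
      by_cases h : w ∈ T
      · simp [h]
      · simp [h]
    rw [Finset.sum_congr rfl (fun z _ => h1 z), h2, Finset.sum_add_distrib]
    refine Nat.add_le_add ih ?_
    by_cases hw : ∃ z ∈ Z, w ∈ S z
    · obtain ⟨z, hz, hwz⟩ := hw
      rw [Finset.sum_eq_single z]
      · simp [hwz, hT z hz hwz]
      · intro z' hz' hne
        have : w ∉ S z' := fun h =>
          Set.disjoint_left.1 (hd z' hz' z hz hne) h hwz
        simp [this]
      · intro h; exact absurd hz h
    · push Not at hw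
      rw [Finset.sum_eq_zero]
      · exact Nat.zero_le _
      · intro z hz
        simp [hw z hz]

lemma ultra {K : Type u} [NontriviallyNormedField K] [IsUltrametricDist K] (x y z : K) :
    ‖x - z‖ ≤ max ‖x - y‖ ‖y - z‖ := by
  have := IsUltrametricDist.norm_add_le_max (x - y) (y - z)
  simpa using this

theorem sumdir : S_NWROOT.{u} → S_GEN.{u} → S_SUMDIR.{u} := by
  intro hN hG K _ _ _ f a c r hr hc Z hZ hZd
  classical
  obtain ⟨B₀, s₁, s₂, -, -, -, hB₀⟩ := hN K f a c r hr hc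
  have hz : ∀ z : K, ∃ B : Finset K, ∀ b : K, ‖b - z‖ ≤ r → (∀ β ∈ B, r ≤ ‖b - β‖) →
      nIn (f.P - C b * f.Q) {w | ‖w - z‖ < r} = Nw f z r := by
    intro z
    obtain ⟨B, s₁, s₂, -, -, -, hB⟩ := hN K f z c r hr hc
    exact ⟨B, fun b h1 h2 => (hB b h1 h2).2.1⟩
  choose B hB using hz
  have hc0 : c ≠ 0 := by
    intro h; rw [h, norm_zero] at hc; linarith
  obtain ⟨b, hb1, hb2, -⟩ := hG K a c ∅ (B₀ ∪ Z.biUnion B) hc0 (by simp)
  rw [hc] at hb1 hb2
  have e0 := (hB₀ b hb1 (fun β hβ => hb2 β (Finset.mem_union_left _ hβ))).2.2.2.1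
  have ez : ∀ z ∈ Z, nIn (f.P - C b * f.Q) {w | ‖w - z‖ < r} = Nw f z r := by
    intro z hz
    refine hB z b ?_ (fun β hβ => hb2 β (Finset.mem_union_right _
      (Finset.mem_biUnion.2 ⟨z, hz, hβ⟩)))
    refine (ultra b a z).trans (max_le hb1 ?_)
    rw [norm_sub_rev]; exact hZ z hz
  rw [← e0, Finset.sum_congr rfl (fun z hz => (ez z hz).symm)]
  unfold nIn
  refine count Z (fun z => {w | ‖w - z‖ < r}) {w | ‖w - a‖ ≤ r} ?_ ?_ _
  · intro z hz w hw
    have hw' : ‖w - z‖ < r := hw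
    exact (ultra w z a).trans (max_le hw'.le (hZ z hz))
  · intro z hz z' hz' hne
    rw [Set.disjoint_left]
    intro w hw hw'
    have h1 : ‖w - z‖ < r := hw
    have h2 : ‖w - z'‖ < r := hw'
    have h3 := hZd z hz z' hz' hne
    have h4 := ultra z w z'
    rw [norm_sub_rev z w] at h4
    have := h4.trans_lt (max_lt h1 h2)
    linarith

theorem center : S_NWROOT.{u} → S_NWI.{u} → S_GEN.{u} → S_DVG.{u} → S_CENTER.{u} := by
  intro hN hI hG hD K _ _ _ f a a' r har
  classical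
  have hr : 0 < r := (norm_nonneg _).trans_lt har
  obtain ⟨-, -, -, -, ⟨s, hs0, hsr, hs⟩, -⟩ := hI K f a r hr
  obtain ⟨-, -, -, -, ⟨s', hs0', hsr', hs'⟩, -⟩ := hI K f a' r hr
  have hm0 : 0 < max (max s s') ‖a - a'‖ := lt_of_lt_of_le hs0 ((le_max_left _ _).trans (le_max_left _ _))
  have hmr : max (max s s') ‖a - a'‖ < r := max_lt (max_lt hsr hsr') har
  obtain ⟨c, hc1, hc2⟩ := hD K _ _ hm0 hmr
  have e1 : Nw f a ‖c‖ = Nw f a r := hs _ (lt_of_le_of_lt ((le_max_left _ _).trans (le_max_left _ _)) hc1) hc2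
  have e2 : Nw f a' ‖c‖ = Nw f a' r := hs' _ (lt_of_le_of_lt ((le_max_right _ _).trans (le_max_left _ _)) hc1) hc2
  have e3 : ‖a - a'‖ < ‖c‖ := lt_of_le_of_lt (le_max_right _ _) hc1
  have hcpos : 0 < ‖c‖ := lt_trans hm0 hc1
  obtain ⟨B, _, _, -, -, -, hB⟩ := hN K f a c ‖c‖ hcpos rfl
  obtain ⟨B', _, _, -, -, -, hB'⟩ := hN K f a' c ‖c‖ hcpos rfl
  obtain ⟨b, hb1, hb2, -⟩ := hG K a c ∅ (B ∪ B') (norm_pos_iff.1 hcpos) (by simp)
  have g1 := (hB b hb1 (fun β hβ => hb2 β (Finset.mem_union_left _ hβ))).2.1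
  have g2 := (hB' b ((ultra b a a').trans (max_le hb1 e3.le))
    (fun β hβ => hb2 β (Finset.mem_union_right _ hβ))).2.1
  rw [← e1, ← e2, ← g1, ← g2]
  congr 1
  ext w
  constructor
  · intro h
    have h' : ‖w - a‖ < ‖c‖ := h
    exact (ultra w a a').trans_lt (max_lt h' e3)
  · intro h
    have h' : ‖w - a'‖ < ‖c‖ := h
    refine (ultra w a' a).trans_lt (max_lt h' ?_)
    rw [norm_sub_rev]; exact e3

end Pool.Agent.W721.BK.Center
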