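import Pool.Agent.W95.BK.Stm

/-!
# Invariance of the repelling fixed points of an iterate (project BK)
-/

open Polynomial Topology Filter MeasureTheory
open Pool.Agent.W95.BK

namespace Pool.Agent.W721.BK.Invx

universe u

lemma hk_gauss (hL : S_GLAM.{u}) (K : Type u) [NontriviallyNormedField K] [IsUltrametricDist K]
    (a : K) (r : ℝ) (hr : 0 < r) : HK (gauss a r hr) := by
  intro b hb
  have h1 := (hL K a b).2 r hr
  have h2 := (hL K b b).1
  rw [hb, h2] at h1
  have : r ≤ max ‖a - b‖ r := le_max_right _ _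
  rw [← h1] at this
  simp at this
  linarith

theorem main : S_LDEX.{u} → S_CHAIN.{u} → S_TYPE2.{u} → S_ACT.{u} → S_FUNC.{u} → S_ITER.{u} →
    S_GLAM.{u} → S_INVX.{u} := by
  intro hE hC hT hA hF hI hL K _ _ _ R n x hd hn hx
  obtain ⟨hII, hfix, hdeg⟩ := hx
  obtain ⟨a, r, hr, -, hxg⟩ := hII
  have hHK : HK x := by rw [hxg]; exact hk_gauss hL K a r hr
  obtain ⟨y, hy, hxy, -, -⟩ := (hA K R).1 x hHK
  have hfd : 2 ≤ (R.iter n).d := by
    rw [(hI K R).1 n]
    calc 2 ≤ R.d := hd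
      _ = R.d ^ 1 := (pow_one _).symm
      _ ≤ R.d ^ n := Nat.pow_le_pow_right (by omega) hn
  have hcomm : R.comp (R.iter n) = (R.iter n).comp R := (hI K R).2.2.1 n
  have hfy : (R.iter n).act (y : P1B K) = (y : P1B K) := by
    have h1 := (hF K).1 (R.iter n) R (x : P1B K)
    rw [← hcomm, (hF K).1 R (R.iter n) (x : P1B K), hfix, hxy] at h1
    exact h1.symm
  have c1 := hC K (R.iter n) R x hHK
  have c2 := hC K R (R.iter n) x hHK
  rw [hcomm, c1, hfix, hxy] at c2
  obtain ⟨m, hm, -, hmR⟩ := hE K R x hHK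
  have heq : localDeg (R.iter n) (y : P1B K) = localDeg (R.iter n) (x : P1B K) := by
    rw [hmR, mul_comm] at c2
    exact Nat.eq_of_mul_eq_mul_left (by omega) c2
  refine ⟨y, hxy, ⟨?_, hfy, ?_⟩, heq⟩
  · exact hT K (R.iter n) y hfd hy hfy (by rw [heq]; exact hdeg)
  · rw [heq]; exact hdeg

end Pool.Agent.W721.BK.Invx
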